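import Mathlib
import Pool.Agent.H27.G.R_seed8.Y969.GP.Def

/-! (SP): spacing of the reduced fractions of height at most `X`, and row sums. -/

set_option autoImplicit false

namespace Pool.Agent.Y379.GP

open Pool.Agent.Y969.GP

theorem log_gap {x y : ℕ} (hx : 1 ≤ x) (hxy : x < y) :
    1 / (2 * (x : ℝ)) ≤ Real.log y - Real.log x := by
  have hx0 : (0 : ℝ) < x := by exact_mod_cast hx
  have hy0 : (0 : ℝ) < y := by exact_mod_cast (lt_of_lt_of_le hx hxy.le)
  have h1 : (x : ℝ) + 1 ≤ y := by exact_mod_cast hxy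
  have hx1 : (1 : ℝ) ≤ x := by exact_mod_cast hx
  have h2 : Real.log (x / (x + 1 : ℝ)) ≤ x / (x + 1 : ℝ) - 1 :=
    Real.log_le_sub_one_of_pos (by positivity)
  rw [Real.log_div hx0.ne' (by positivity)] at h2
  have h3 : Real.log ((x : ℝ) + 1) ≤ Real.log y := Real.log_le_log (by positivity) h1
  have h4 : (x : ℝ) / (x + 1) - 1 = -(1 / (x + 1)) := by field_simp; ring
  have h5 : 1 / (2 * (x : ℝ)) ≤ 1 / (x + 1) :=
    one_div_le_one_div_of_le (by positivity) (by linarith)
  linarith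

theorem mem_FR {X : ℕ} {p : ℕ × ℕ} (hp : p ∈ FR X) :
    1 ≤ p.1 ∧ 1 ≤ p.2 ∧ p.1 * p.2 ≤ X ∧ Nat.Coprime p.1 p.2 ∧ p.1 ≤ X ∧ p.2 ≤ X := by
  unfold FR PS at hp
  simp only [Finset.mem_filter, Finset.mem_product, Finset.mem_Icc] at hp
  exact ⟨hp.1.1.1.1, hp.1.1.2.1, hp.1.2, hp.2, hp.1.1.1.2, hp.1.1.2.2⟩

theorem sp1 (X : ℕ) (p q : ℕ × ℕ) (hp : p ∈ FR X) (hq : q ∈ FR X) (hpq : p ≠ q) :
    1 / (2 * (X : ℝ)) ≤ |lam p - lam q| := by
  obtain ⟨a, b⟩ := p
  obtain ⟨a', b'⟩ := q
  obtain ⟨ha, hb, hab, hc, -, -⟩ := mem_FR hp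
  obtain ⟨ha', hb', hab', hc', -, -⟩ := mem_FR hq
  simp only at ha hb hab hc ha' hb' hab' hc'
  have hX : 1 ≤ X := le_trans (Nat.mul_pos ha hb) hab
  have hX0 : (0 : ℝ) < X := by exact_mod_cast hX
  have ha0 : (a : ℝ) ≠ 0 := by positivity
  have hb0 : (b : ℝ) ≠ 0 := by positivity
  have ha0' : (a' : ℝ) ≠ 0 := by positivity
  have hb0' : (b' : ℝ) ≠ 0 := by positivity
  have hlam : lam (a, b) - lam (a', b') = Real.log ((b * a' : ℕ) : ℝ)
      - Real.log ((b' * a : ℕ) : ℝ) := by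
    unfold lam
    push_cast
    rw [Real.log_mul hb0 ha0', Real.log_mul hb0' ha0]
    ring
  have hne : b * a' ≠ b' * a := by
    intro h
    apply hpq
    have h1 : a ∣ b * a' := ⟨b', by rw [h]; ring⟩
    have h2 : a ∣ a' := hc.dvd_of_dvd_mul_left h1
    have h3 : a' ∣ b' * a := ⟨b, by rw [← h]; ring⟩
    have h4 : a' ∣ a := hc'.dvd_of_dvd_mul_left h3
    have h5 : a = a' := Nat.dvd_antisymm h2 h4
    subst h5
    have h6 : b = b' := Nat.eq_of_mul_eq_mul_right ha h
    rw [h6]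
  have hxy : (b * a') * (b' * a) ≤ X * X := by
    calc (b * a') * (b' * a) = (a * b) * (a' * b') := by ring
      _ ≤ X * X := Nat.mul_le_mul hab hab'
  have hx1 : 1 ≤ b * a' := Nat.mul_pos hb ha'
  have hy1 : 1 ≤ b' * a := Nat.mul_pos hb' ha
  rw [hlam]
  rcases lt_or_gt_of_ne hne with h | h
  · have h1 := log_gap hx1 h
    have h2 : b * a' ≤ X := by
      by_contra hcon
      push Not at hcon
      have : X * X < (b * a') * (b' * a) := Nat.mul_lt_mul'' hcon (by omega)
      omega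
    have h3 : (((b * a' : ℕ)) : ℝ) ≤ X := by exact_mod_cast h2
    have h4 : (0 : ℝ) < ((b * a' : ℕ) : ℝ) := by exact_mod_cast hx1
    have h5 : 1 / (2 * (X : ℝ)) ≤ 1 / (2 * ((b * a' : ℕ) : ℝ)) :=
      one_div_le_one_div_of_le (by positivity) (by linarith)
    rw [abs_sub_comm]
    exact (h5.trans h1).trans (le_abs_self _)
  · have h1 := log_gap hy1 h
    have h2 : b' * a ≤ X := by
      by_contra hcon
      push Not at hcon
      have : X * X < (b * a') * (b' * a) := Nat.mul_lt_mul'' (by omega) hcon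
      omega
    have h3 : (((b' * a : ℕ)) : ℝ) ≤ X := by exact_mod_cast h2
    have h4 : (0 : ℝ) < ((b' * a : ℕ) : ℝ) := by exact_mod_cast hy1
    have h5 : 1 / (2 * (X : ℝ)) ≤ 1 / (2 * ((b' * a : ℕ) : ℝ)) :=
      one_div_le_one_div_of_le (by positivity) (by linarith)
    exact (h5.trans h1).trans (le_abs_self _)

theorem harm (n : ℕ) : ∑ j ∈ Finset.Icc 1 n, 1 / (j : ℝ) ≤ 1 + Real.log n := by
  have h := harmonic_le_one_add_log n
  rw [harmonic_eq_sum_Icc] at h
  push_cast at h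
  simpa only [one_div] using h

/-- sum of a decreasing function over an injective family of naturals -/
theorem row1 {X : ℕ} (hX : 1 ≤ X) {T : ℝ} (hT : 1 ≤ T) (s : Finset (ℕ × ℕ))
    (J : ℕ × ℕ → ℕ) (hJ : Set.InjOn J s) (hs : s.card ≤ X * X) :
    ∑ p ∈ s, T / (1 + T * ((J p : ℝ) / (2 * X))) ≤ T + 2 * X * (1 + 2 * Real.log X) + 2 * X := by
  classical
  have hX0 : (0 : ℝ) < X := by exact_mod_cast hX
  have hT0 : 0 < T := by linarith
  set F : ℕ → ℝ := fun j => T / (1 + T * ((j : ℝ) / (2 * X))) with hF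
  have hpt : ∀ j : ℕ, F j ≤ (if j = 0 then T else 0) +
      (if j ∈ Finset.Icc 1 (X * X) then 2 * X * (1 / (j : ℝ)) else 0) + 2 / X := by
    intro j
    rcases Nat.eq_zero_or_pos j with h0 | h0
    · subst h0
      have : F 0 = T := by simp [hF]
      rw [this, if_pos rfl, if_neg (by simp)]
      have : (0 : ℝ) < 2 / X := by positivity
      linarith
    · have hj0 : (0 : ℝ) < j := by exact_mod_cast h0
      have h1 : F j ≤ 2 * X * (1 / (j : ℝ)) := by
        have h2 : F j ≤ T / (T * ((j : ℝ) / (2 * X))) :=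
          div_le_div_of_nonneg_left hT0.le (by positivity) (by linarith)
        refine h2.trans (le_of_eq ?_)
        field_simp
      rw [if_neg (by omega)]
      by_cases h2 : j ∈ Finset.Icc 1 (X * X)
      · rw [if_pos h2]
        have : (0 : ℝ) < 2 / X := by positivity
        linarith
      · rw [if_neg h2]
        rw [Finset.mem_Icc, not_and, not_le] at h2
        have h3 := h2 h0
        have h4 : (X : ℝ) * X ≤ j := by exact_mod_cast h3.le
        have h5 : 2 * X * (1 / (j : ℝ)) ≤ 2 / X := by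
          rw [mul_one_div, div_le_div_iff₀ hj0 hX0]
          nlinarith
        linarith
  have h1 : ∑ p ∈ s, T / (1 + T * ((J p : ℝ) / (2 * X))) = ∑ j ∈ s.image J, F j := by
    rw [Finset.sum_image hJ]
  rw [h1]
  have h2 : ∑ j ∈ s.image J, F j ≤ ∑ j ∈ s.image J, ((if j = 0 then T else 0) +
      (if j ∈ Finset.Icc 1 (X * X) then 2 * X * (1 / (j : ℝ)) else 0) + 2 / X) :=
    Finset.sum_le_sum fun j _ => hpt j
  rw [Finset.sum_add_distrib, Finset.sum_add_distrib] at h2
  have h3 : ∑ j ∈ s.image J, (if j = 0 then T else 0) ≤ T := by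
    rw [Finset.sum_ite_eq']
    split_ifs <;> linarith
  have h4 : ∑ j ∈ s.image J, (if j ∈ Finset.Icc 1 (X * X) then 2 * X * (1 / (j : ℝ)) else 0) ≤
      2 * X * (1 + 2 * Real.log X) := by
    rw [← Finset.sum_filter]
    have h5 : ∑ j ∈ (s.image J).filter (fun j => j ∈ Finset.Icc 1 (X * X)),
        2 * X * (1 / (j : ℝ)) ≤ ∑ j ∈ Finset.Icc 1 (X * X), 2 * X * (1 / (j : ℝ)) := by
      apply Finset.sum_le_sum_of_subset_of_nonneg
      · intro j hj
        exact (Finset.mem_filter.1 hj).2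
      · intro j _ _
        positivity
    refine h5.trans ?_
    rw [← Finset.mul_sum]
    have h6 := harm (X * X)
    have h7 : Real.log ((X * X : ℕ) : ℝ) = 2 * Real.log X := by
      push_cast
      rw [Real.log_mul hX0.ne' hX0.ne']
      ring
    rw [h7] at h6
    exact mul_le_mul_of_nonneg_left h6 (by positivity)
  have h5 : ∑ j ∈ s.image J, (2 / (X : ℝ)) ≤ 2 * X := by
    rw [Finset.sum_const, nsmul_eq_mul]
    have h6 : ((s.image J).card : ℝ) ≤ X * X := by
      exact_mod_cast Finset.card_image_le.trans hs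
    have h7 : ((s.image J).card : ℝ) * (2 / X) ≤ (X * X) * (2 / X) :=
      mul_le_mul_of_nonneg_right h6 (by positivity)
    refine h7.trans (le_of_eq ?_)
    field_simp
  linarith

theorem card_FR (X : ℕ) : (FR X).card ≤ X * X := by
  unfold FR PS
  refine (Finset.card_filter_le _ _).trans ((Finset.card_filter_le _ _).trans ?_)
  rw [Finset.card_product, Nat.card_Icc]
  simp

theorem side {X : ℕ} (hX : 1 ≤ X) {T : ℝ} (hT : 1 ≤ T) (θ : ℝ) (s : Finset (ℕ × ℕ))
    (hs : s ⊆ FR X) (hsgn : ∀ p ∈ s, ∀ q ∈ s,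
      |lam p - θ| - |lam q - θ| = lam p - lam q ∨ |lam p - θ| - |lam q - θ| = lam q - lam p) :
    ∑ p ∈ s, mk T (lam p - θ) ≤ T + 2 * X * (1 + 2 * Real.log X) + 2 * X := by
  have hX0 : (0 : ℝ) < X := by exact_mod_cast hX
  have hT0 : 0 < T := by linarith
  have hJ : Set.InjOn (fun p : ℕ × ℕ => ⌊2 * (X : ℝ) * |lam p - θ|⌋₊) s := by
    intro p hp q hq hpq
    by_contra hne
    have h1 := sp1 X p q (hs hp) (hs hq) hne
    have h2 : |2 * (X : ℝ) * |lam p - θ| - 2 * (X : ℝ) * (|lam q - θ|)| < 1 := by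
      simp only at hpq
      have a1 := Nat.floor_le (show 0 ≤ 2 * (X : ℝ) * |lam p - θ| by positivity)
      have a2 := Nat.lt_floor_add_one (2 * (X : ℝ) * |lam p - θ|)
      have a3 := Nat.floor_le (show 0 ≤ 2 * (X : ℝ) * |lam q - θ| by positivity)
      have a4 := Nat.lt_floor_add_one (2 * (X : ℝ) * |lam q - θ|)
      rw [hpq] at a1 a2
      rw [abs_lt]
      constructor <;> linarith
    have h3 : |2 * (X : ℝ) * |lam p - θ| - 2 * (X : ℝ) * (|lam q - θ|)| =
        2 * X * |lam p - lam q| := by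
      rw [← mul_sub, abs_mul, abs_of_pos (by positivity : (0 : ℝ) < 2 * X)]
      rcases hsgn p hp q hq with h | h
      · rw [h]
      · rw [h, abs_sub_comm]
    rw [h3] at h2
    have h4 : 2 * (X : ℝ) * (1 / (2 * (X : ℝ))) ≤ 2 * X * |lam p - lam q| :=
      mul_le_mul_of_nonneg_left h1 (by positivity)
    rw [mul_one_div_cancel (by positivity)] at h4
    linarith
  refine le_trans (Finset.sum_le_sum ?_) (row1 hX hT s _ hJ
    ((Finset.card_le_card hs).trans (card_FR X)))
  intro p _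
  unfold mk
  apply div_le_div_of_nonneg_left hT0.le (by positivity)
  have h1 : (⌊2 * (X : ℝ) * |lam p - θ|⌋₊ : ℝ) / (2 * X) ≤ |lam p - θ| := by
    rw [div_le_iff₀ (by positivity)]
    have := Nat.floor_le (show 0 ≤ 2 * (X : ℝ) * |lam p - θ| by positivity)
    linarith
  have := mul_le_mul_of_nonneg_left h1 hT0.le
  linarith

theorem t_SP : S_SP := by
  classical
  refine ⟨sp1, 8, by norm_num, ?_⟩
  intro X T θ hX hT
  have hX0 : (0 : ℝ) < X := by exact_mod_cast hX
  have hX1 : (1 : ℝ) ≤ X := by exact_mod_cast hX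
  have hlog : 0 ≤ Real.log X := Real.log_nonneg hX1
  rw [← Finset.sum_filter_add_sum_filter_not (FR X) (fun p => θ ≤ lam p)]
  have h1 := side hX hT θ ((FR X).filter (fun p => θ ≤ lam p)) (Finset.filter_subset _ _) (by
    intro p hp q hq
    left
    have hp' := (Finset.mem_filter.1 hp).2
    have hq' := (Finset.mem_filter.1 hq).2
    rw [abs_of_nonneg (by linarith), abs_of_nonneg (by linarith)]
    ring)
  have h2 := side hX hT θ ((FR X).filter (fun p => ¬ θ ≤ lam p)) (Finset.filter_subset _ _) (by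
    intro p hp q hq
    right
    have hp' := (Finset.mem_filter.1 hp).2
    have hq' := (Finset.mem_filter.1 hq).2
    rw [abs_of_neg (by linarith), abs_of_neg (by linarith)]
    ring)
  have h3 : 0 ≤ T * Real.log X := by positivity
  have h4 : 0 ≤ (X : ℝ) * Real.log X := by positivity
  nlinarith

end Pool.Agent.Y379.GP
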